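import Pool.Agent.H310R3.Inh.Stmts
import Pool.Agent.H310R3.NA10

/-!
# The Cantor cube is no remainder of a set with a dense linear order with finite supports
-/

set_option maxHeartbeats 1000000
set_option linter.all false
set_option synthInstance.maxSize 2000

namespace Pool.Agent.H941R3.Inh

open FirstOrder FirstOrder.Language
open Pool.Agent.Helper672.ZFA
open Pool.Agent.H310
open Pool.Agent.H310Cards
open Pool.Agent.H310Top
open Pool.Agent.H310R3.Inh

universe u

section

variable {M : Type u} [L.Structure M] [hM : IsModel M] {Q : Type u} [ITy M Q]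

theorem dlo_inf {lt : Q → Q → Prop} (hQ : DLO M Q lt) : ¬ FinP M (fun _ : Q => True) := by
  rintro ⟨s, hs, hs'⟩
  have hlt : Int M (fun q : Q × Q => lt q.1 q.2) := hQ.int
  have key : ∀ s : IPow M Q, IFin s → ∃ m, ∀ a, a ∈ s → lt a m := by
    refine IFin.ind (p := fun s : IPow M Q => ∃ m, ∀ a, a ∈ s → lt a m) (by (repeat' (first | with_reducible exact IntF.id | with_reducible exact IntF.fst' | with_reducible exact IntF.snd' | with_reducible exact IntF.const _ | with_reducible exact Int.const _ | assumption | with_reducible apply Int.and | with_reducible apply Int.or | with_reducible apply Int.not | with_reducible apply Int.imp | with_reducible apply Int.iff | with_reducible apply Int.ne | with_reducible apply Int.eq | with_reducible apply Int.mem | with_reducible apply Int.subset | with_reducible apply Int.ltN | with_reducible apply Int.leN | with_reducible_and_instances apply Int.le | with_reducible_and_instances apply Int.lt | with_reducible apply Int.all | with_reducible apply Int.ex | with_reducible apply IntF.fst | with_reducible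 apply IntF.snd | with_reducible apply IntF.app | with_reducible apply IntF.inl | with_reducible apply IntF.inr | with_reducible_and_instances apply IntF.mul | with_reducible_and_instances apply IntF.inv | with_reducible_and_instances apply IntF.add | with_reducible_and_instances apply IntF.sub | with_reducible_and_instances apply IntF.neg | with_reducible_and_instances apply IntF.smul | with_reducible apply Int.fin | with_reducible apply IntF.sep | with_reducible apply IntF.lam | with_reducible apply IntF.insert | with_reducible apply IntF.singleton | with_reducible apply IntF.union | with_reducible apply IntF.iimage | with_reducible apply IntF.ite | with_reducible apply IntF.the | with_reducible apply IntF.irec | with_reducible apply IntF.succ | with_reducible apply IntF.val | with_reducible apply IntF.mk | (with_reducible refine Int.comp ?_ ?_; assumption) | (with_reducible refine Int.comp₂ ?_ ?_ ?_; assumption) | (with_reducible refine Int.comp₃ ?_ ?_ ?_ ?_; assumption) | (with_reducible refine Int.comp₄ ?_ ?_ ?_ ?_ ?_; assumption) | (with_reducible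 refine IntF.comp ?_ ?_; assumption) | (with_reducible refine IntF.comp₂ ?_ ?_ ?_; assumption) | (with_reducible refine IntF.comp₃ ?_ ?_ ?_ ?_; assumption) | with_reducible apply IntF.pair))) ?_ ?_
    · obtain ⟨q⟩ := hQ.ne
      exact ⟨q, fun a ha => absurd ha (by simp)⟩
    · rintro s a - - ⟨m, hm⟩
      rcases hQ.total a m with h | h | h
      · refine ⟨m, fun b hb => ?_⟩
        rcases mem_insert.1 hb with rfl | hb
        · exact h
        · exact hm b hb
      · obtain ⟨m', hm'⟩ := hQ.noMax m
        refine ⟨m', fun b hb => ?_⟩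
        rcases mem_insert.1 hb with rfl | hb
        · rw [h]
          exact hm'
        · exact hQ.trans _ _ _ (hm b hb) hm'
      · obtain ⟨m', hm'⟩ := hQ.noMax a
        refine ⟨m', fun b hb => ?_⟩
        rcases mem_insert.1 hb with rfl | hb
        · exact hm'
        · exact hQ.trans _ _ _ (hm b hb) (hQ.trans _ _ _ h hm')
  obtain ⟨m, hm⟩ := key s hs
  exact hQ.irrefl m (hm m (hs' m trivial))

end

section

attribute [local instance] Helper672.Plain.toL

variable {M : Type u} [Helper672.Plain.LSet.Structure M] [hZ : Helper672.Plain.Zermelo M]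

local instance instModelL'' : IsModel M := Helper672.Plain.isModel_toL

/-- the inclusion of a subset -/
def incl {r x : M} (h : ∀ z, Mem z r → Mem z x) (y : El r) : El x := ⟨y.1, h y.1 y.2⟩

/-- the inclusion of a subset is internal -/
theorem int_incl {r x : M} (h : ∀ z, Mem z r → Mem z x) : IntF M (incl h) := by
  refine IntF.of_D (S := fun v => v 0 = v 1) (D.eqf (DF.var _) (DF.var _)) fun a b => ?_
  constructor
  · intro hab
    exact Subtype.ext hab
  · intro hab
    exact congrArg Subtype.val hab

theorem taskIDF : TaskIDF := by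
  intro hSeq N _ _ d lt hQS hIDF
  have hinf : ¬ IsFinite d := by
    intro hfin
    refine dlo_inf hQS.toDLO (finP_of_finite (t := d) (Int.const _) (fun z => ?_) hfin)
    constructor
    · intro hz
      exact ⟨⟨z, hz⟩, trivial, rfl⟩
    · rintro ⟨a, -, rfl⟩
      exact a.2
  obtain ⟨x, t, f, r, h, w, p, hc, hr, hw, hp, hh⟩ := hIDF d hinf
  have ht := hc.top
  have hf := hc.inj.1
  have hx : ∀ z : N, Mem z x → ∃ a : El x, code a = z := fun z hz => ⟨⟨z, hz⟩, rfl⟩
  have hsub : ∀ {u : N}, Mem u t → ∃ U : IPow N (El x), code U = u := fun hu =>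
    exists_code_of fun z hz => hx z (ht.sub _ hu z hz)
  have hmem : ∀ {U : IPow N (El x)} {a : El x}, Mem (code (M := N) a) (code (M := N) U) ↔
      a ∈ U := mem_code_iff
  let Op : IPow N (IPow N (El x)) := ⟨fun U => Mem (code (M := N) U) t, ⟨t, fun _ => Iff.rfl⟩⟩
  have hOp : ∀ {U : IPow N (El x)}, U ∈ Op ↔ Mem (code (M := N) U) t := Iff.rfl
  obtain ⟨φ, hφ, hφ'⟩ := exists_fun (α := El d) (β := El x) hf (fun a => a.2) hx
  have happ : ∀ a : El d, App f a.1 (φ a).1 := fun a => (hφ' a (φ a)).1 rfl
  have happ' : ∀ {a y : N}, App f a y → ∃ b : El d, b.1 = a ∧ (φ b).1 = y := by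
    intro a y h
    obtain ⟨h1, h2⟩ := app_mem hf h
    refine ⟨⟨a, h1⟩, rfl, ?_⟩
    exact congrArg Subtype.val ((hφ' ⟨a, h1⟩ ⟨y, h2⟩).2 h)
  have hφinj : Function.Injective φ := by
    intro a b hab
    have h1 := happ a
    have h2 := happ b
    rw [hab] at h1
    exact Subtype.ext (hc.inj.2 _ _ _ h1 h2)
  have hICH : ICH N (El x) Op := by
    refine ⟨?_, ?_, ?_, ?_, ?_⟩
    · change Mem (code (M := N) (iuniv N (El x))) t
      have h1 : code (M := N) (iuniv N (El x)) = x := extM fun z => by
        rw [mem_codeU]
        exact ⟨fun ⟨a, _, h⟩ => h ▸ a.2, fun hz => ⟨⟨z, hz⟩, by simp, rfl⟩⟩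
      rw [h1]
      exact ht.univ
    · intro U V hU hV
      refine ht.inter (code (M := N) U) (code (M := N) V) _ hU hV fun z => ?_
      refine mem_codeU.trans ?_
      constructor
      · rintro ⟨a, ha, rfl⟩
        exact ⟨hmem.2 (mem_inter.1 ha).1, hmem.2 (mem_inter.1 ha).2⟩
      · rintro ⟨h1, h2⟩
        obtain ⟨a, ha, rfl⟩ := mem_codeU.1 h1
        exact ⟨a, mem_inter.2 ⟨ha, hmem.1 h2⟩, rfl⟩
    · intro G hG
      refine ht.union (code (M := N) G) _ (fun u hu => ?_) fun z => ?_
      · obtain ⟨U, hU, rfl⟩ := mem_codeU.1 hu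
        exact hG U hU
      · refine mem_codeU.trans ?_
        constructor
        · rintro ⟨a, ha, rfl⟩
          obtain ⟨U, hU, haU⟩ := mem_isUnion.1 ha
          exact ⟨code (M := N) U, mem_codeU.2 ⟨U, hU, rfl⟩, hmem.2 haU⟩
        · rintro ⟨u, hu, hzu⟩
          obtain ⟨U, hU, rfl⟩ := mem_codeU.1 hu
          obtain ⟨a, ha, rfl⟩ := mem_codeU.1 hzu
          exact ⟨a, mem_isUnion.2 ⟨U, hU, ha⟩, rfl⟩
    · intro G hG hcov
      obtain ⟨c', h1, h2, h3⟩ := hc.compact (code (M := N) G) (fun u hu => by
        obtain ⟨U, hU, rfl⟩ := mem_codeU.1 hu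
        exact hG U hU) (fun z hz => by
        obtain ⟨U, hU, hzU⟩ := hcov ⟨z, hz⟩
        exact ⟨code (M := N) U, mem_codeU.2 ⟨U, hU, rfl⟩, mem_codeU.2 ⟨_, hzU, rfl⟩⟩)
      have hI : Int N (fun U : IPow N (El x) => Mem (code (M := N) U) c') := ⟨c', fun _ => Iff.rfl⟩
      have h4 : FinP N (fun U : IPow N (El x) => Mem (code (M := N) U) c') := by
        refine finP_of_finite (t := c') hI (fun z => ?_) h1
        constructor
        · intro hz
          obtain ⟨U, hU, rfl⟩ := mem_codeU.1 (h2 z hz)
          exact ⟨U, hz, rfl⟩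
        · rintro ⟨U, hU, rfl⟩
          exact hU
      refine ⟨sep N (fun U : IPow N (El x) => Mem (code (M := N) U) c'), h4.fin hI, fun U hU => ?_,
        fun z => ?_⟩
      · have h5 := h2 _ ((mem_sep hI).1 hU)
        obtain ⟨V, hV, hVU⟩ := mem_codeU.1 h5
        rw [← ITy.inj hVU]
        exact hV
      · obtain ⟨u, hu, hzu⟩ := h3 z.1 z.2
        obtain ⟨U, hU, rfl⟩ := mem_codeU.1 (h2 u hu)
        exact ⟨U, (mem_sep hI).2 hu, hmem.1 hzu⟩
    · intro a b hab
      obtain ⟨u, v, hu, hv, hau, hbv, hd⟩ := hc.haus (code (M := N) a) (code (M := N) b) a.2 b.2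
        fun h => hab (ITy.inj h)
      obtain ⟨U, rfl⟩ := hsub hu
      obtain ⟨V, rfl⟩ := hsub hv
      exact ⟨U, V, hu, hv, hmem.1 hau, hmem.1 hbv, fun z hz hz' =>
        hd _ (hmem.2 hz) (hmem.2 hz')⟩
  -- the sequence
  have hw' : ∀ z, Mem z w ↔ ∃ n : INat N, code n = z := fun z => mem_omega hw
  have hp' : ∀ {z : N}, Mem z p ↔ ∃ s : IPow N (INat N), code s = z := mem_pow hw' hp
  have hrx : ∀ z, Mem z r → Mem z x := fun z hz => ((hr z).1 hz).1
  obtain ⟨ψ, hψ, hψ'⟩ := exists_fun (α := El r) (β := IPow N (INat N)) hh.bij.1.1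
    (fun a => a.2) (fun z hz => hp'.1 hz)
  have hψinj : Function.Injective ψ := by
    intro a b hab
    have h1 := (hψ' a (ψ a)).1 rfl
    have h2 := (hψ' b (ψ b)).1 rfl
    rw [hab] at h1
    exact Subtype.ext (hh.bij.1.2 _ _ _ h1 h2)
  have hψsurj : ∀ s, ∃ a, ψ a = s := by
    intro s
    obtain ⟨y, hy⟩ := hh.bij.2 (code s) (hp'.2 ⟨s, rfl⟩)
    obtain ⟨h1, h2⟩ := app_mem hh.bij.1.1 hy
    exact ⟨⟨y, h1⟩, (hψ' ⟨y, h1⟩ s).2 hy⟩
  obtain ⟨y₀, -⟩ := hψsurj ∅
  have hR : Int N (fun q : INat N × El r => ψ q.2 = {q.1}) := by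
    (repeat' (first | with_reducible exact IntF.id | with_reducible exact IntF.fst' | with_reducible exact IntF.snd' | with_reducible exact IntF.const _ | with_reducible exact Int.const _ | assumption | with_reducible apply Int.and | with_reducible apply Int.or | with_reducible apply Int.not | with_reducible apply Int.imp | with_reducible apply Int.iff | with_reducible apply Int.ne | with_reducible apply Int.eq | with_reducible apply Int.mem | with_reducible apply Int.subset | with_reducible apply Int.ltN | with_reducible apply Int.leN | with_reducible_and_instances apply Int.le | with_reducible_and_instances apply Int.lt | with_reducible apply Int.all | with_reducible apply Int.ex | with_reducible apply IntF.fst | with_reducible apply IntF.snd | with_reducible apply IntF.app | with_reducible apply IntF.inl | with_reducible apply IntF.inr | with_reducible_and_instances apply IntF.mul | with_reducible_and_instances apply IntF.inv | with_reducible_and_instances apply IntF.add | with_reducible_and_instances apply IntF.sub | with_reducible_and_instances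 apply IntF.neg | with_reducible_and_instances apply IntF.smul | with_reducible apply Int.fin | with_reducible apply IntF.sep | with_reducible apply IntF.lam | with_reducible apply IntF.insert | with_reducible apply IntF.singleton | with_reducible apply IntF.union | with_reducible apply IntF.iimage | with_reducible apply IntF.ite | with_reducible apply IntF.the | with_reducible apply IntF.irec | with_reducible apply IntF.succ | with_reducible apply IntF.val | with_reducible apply IntF.mk | (with_reducible refine Int.comp ?_ ?_; assumption) | (with_reducible refine Int.comp₂ ?_ ?_ ?_; assumption) | (with_reducible refine Int.comp₃ ?_ ?_ ?_ ?_; assumption) | (with_reducible refine Int.comp₄ ?_ ?_ ?_ ?_ ?_; assumption) | (with_reducible refine IntF.comp ?_ ?_; assumption) | (with_reducible refine IntF.comp₂ ?_ ?_ ?_; assumption) | (with_reducible refine IntF.comp₃ ?_ ?_ ?_ ?_; assumption) | with_reducible apply IntF.pair))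
  have hj₀ : IntF N (fun n : INat N => the (fun y : El r => ψ y = {n}) y₀) :=
    IntF.the hR (IntF.const _)
  have hj₀' : ∀ n : INat N, ψ (the (fun y : El r => ψ y = {n}) y₀) = {n} := by
    intro n
    obtain ⟨a, ha⟩ := hψsurj {n}
    have h1 : the (fun y : El r => ψ y = {n}) y₀ = a :=
      the_eq (p := fun y : El r => ψ y = {n}) ⟨a, ha, fun b hb => hψinj (hb.trans ha.symm)⟩ ha
    rw [h1]
    exact ha
  have hj := IntF.comp (int_incl hrx) hj₀
  refine hSeq N (El d) (El x) lt Op φ _ hQS hICH hφ hφinj ?_ ?_ hj ?_ ?_
  · intro a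
    obtain ⟨u, hu, hau, h⟩ := hc.disc _ _ (happ a)
    obtain ⟨U, rfl⟩ := hsub hu
    exact ⟨U, hu, hmem.1 hau, fun b hb =>
      hφinj (Subtype.ext (h _ _ (happ b) (hmem.2 hb)))⟩
  · rintro U hU ⟨z, hz⟩
    obtain ⟨a, y, h1, h2⟩ := hc.dense _ hU ⟨_, hmem.2 hz⟩
    obtain ⟨b, rfl, rfl⟩ := happ' h1
    exact ⟨b, hmem.1 h2⟩
  · intro n m hnm
    have h0 : (incl hrx (the (fun y : El r => ψ y = {n}) y₀)).1 =
        (incl hrx (the (fun y : El r => ψ y = {m}) y₀)).1 := congrArg Subtype.val hnm
    have h1 : the (fun y : El r => ψ y = {n}) y₀ = the (fun y : El r => ψ y = {m}) y₀ :=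
      Subtype.ext h0
    have h2 := hj₀' n
    rw [h1, hj₀' m] at h2
    have h3 : n ∈ ({n} : IPow N (INat N)) := mem_singleton.2 rfl
    rw [← h2] at h3
    exact mem_singleton.1 h3
  · intro n a hna
    have h1 := ((hr _).1 (the (fun y : El r => ψ y = {n}) y₀).2).2
    apply h1
    refine ⟨a.1, ?_⟩
    have h2 := happ a
    rw [← hna] at h2
    exact h2

end

end Pool.Agent.H941R3.Inh
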